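import Pool.Agent.helper65.GF.SpecG

set_option autoImplicit false

namespace Pool.Agent.GD

open Finset Metric Filter Topology

theorem YLI_add (p : ℕ) (Φ : ℕ → ℕ → ℂ) (c : ℕ → ℂ) (j : ℕ) (δ : ℂ) (hj : j ≤ p) (i : ℕ) :
    cmbh p Φ (fun m => c m + if m = j then δ else 0) i = cmbh p Φ c i + δ * Φ j i := by
  unfold cmbh
  have e : ∀ m ∈ range (p + 1), (c m + if m = j then δ else 0) * Φ m i
      = c m * Φ m i + (if m = j then δ * Φ m i else 0) := by
    intro m _
    by_cases h : m = j
    · simp only [h, if_true]
      ring
    · simp [h]
  rw [Finset.sum_congr rfl e, Finset.sum_add_distrib, Finset.sum_ite_eq' (range (p + 1)) j,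
    if_pos (Finset.mem_range.2 (by omega))]

theorem YLI : YLI_stmt := by
  intro p Φ hlow hdiag
  constructor
  · intro t
    have key : ∀ k : ℕ, k ≤ p + 1 → ∃ c : ℕ → ℂ, ∀ i, i < k → cmbh p Φ c i = t i := by
      intro k
      induction k with
      | zero =>
        intro _
        exact ⟨fun _ => 0, fun i hi => absurd hi (Nat.not_lt_zero i)⟩
      | succ k ih =>
        intro hk
        obtain ⟨c, hc⟩ := ih (by omega)
        refine ⟨fun m => c m + if m = k then t k - cmbh p Φ c k else 0, ?_⟩
        intro i hi
        rw [YLI_add p Φ c k _ (by omega) i]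
        by_cases h : i = k
        · rw [h, hdiag k]
          ring
        · rw [hlow k i (by omega), mul_zero, add_zero]
          exact hc i (by omega)
    obtain ⟨c, hc⟩ := key (p + 1) le_rfl
    exact ⟨c, fun j hj => hc j (by omega)⟩
  · intro c hc m
    induction m using Nat.strong_induction_on with
    | _ m ih =>
      intro hm
      have h0 := hc m hm
      unfold cmbh at h0
      rw [Finset.sum_eq_single m] at h0
      · rw [hdiag m, mul_one] at h0
        exact h0
      · intro i hi hne
        rcases lt_or_gt_of_ne hne with h | h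
        · rw [ih i h (by omega), zero_mul]
        · rw [hlow i m h, mul_zero]
      · intro h
        exact absurd (Finset.mem_range.2 (by omega)) h

end Pool.Agent.GD
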